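import Pool.Agent.H31.UF.Targets

/-!
# (DLF) the dilation identity
-/

set_option autoImplicit false

open Finset Filter Topology

namespace Pool.Agent.H35.UF

open Pool.Agent.H91.LF Pool.Agent.H31.UF

theorem pf_DLF : T_DLF := by
  intro d r S _ A a W c M p hM hS hp hpW
  have h1 := hM p hp (fun ω => Fp A (fun i => (p : ℤ) * a i) W c (fun i => (p : ℤ) * ω i))
    ⟨1, fun ω => abs_Fp_le _ _ _ _ _⟩
  have e1 : (fun ω : Fin d → ℤ => (p : ℝ) ^ d *
      if ∀ i, (p : ℤ) ∣ ω i then Fp A (fun i => (p : ℤ) * a i) W c ω else 0) =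
      fun ω => (p : ℝ) ^ d * if ∀ i, (p : ℤ) ∣ ω i then
        Fp A (fun i => (p : ℤ) * a i) W c (fun i => (p : ℤ) * (ω i / p)) else 0 := by
    funext ω
    by_cases h : ∀ i, (p : ℤ) ∣ ω i
    · rw [if_pos h, if_pos h]
      congr 2
      funext i
      exact (Int.mul_ediv_cancel' (h i)).symm
    · rw [if_neg h, if_neg h]
  have e2 : (fun ω : Fin d → ℤ =>
      Fp A (fun i => (p : ℤ) * a i) W c (fun i => (p : ℤ) * ω i)) = Fp A a W c := by
    funext ω
    have hcl : (∀ i, (p : ℤ) * ω i ≡ c i [ZMOD W]) ↔ ∀ i, ω i ≡ c i [ZMOD W] := by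
      have hx : ∀ x : ℤ, (p : ℤ) * x ≡ x [ZMOD W] := fun x => by
        have := hpW.mul_right x
        rwa [one_mul] at this
      constructor
      · intro h1 i
        exact (hx _).symm.trans (h1 i)
      · intro h1 i
        exact (hx _).trans (h1 i)
    unfold Fp
    simp only [hcl]
    split_ifs with hc
    · apply Finset.prod_congr rfl
      intro i _
      have h2 : ∀ s, lf (A i s) (fun l => (p : ℤ) * ω l) + (p : ℤ) * a i =
          (p : ℤ) * (lf (A i s) ω + a i) := fun s => by rw [lf_mul]; ring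
      simp only [h2]
      exact prod_lz_mul hS hp _
    · rfl
  rw [e1, h1, e2]

end Pool.Agent.H35.UF
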